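import Pool.Agent.LUB.Stmts

/-!
# Row EVH: evaluation of power series over the `p`-adic integers
-/

set_option autoImplicit false

open Filter Topology

namespace Pool.Agent.LUB.H89

theorem lin_top (p : ℕ) [hp : Fact p.Prime] : IsLinearTopology ℤ_[p] ℤ_[p] := by
  have hp1 : (1 : ℝ) < p := by exact_mod_cast hp.out.one_lt
  have hb : (𝓝 (0 : ℤ_[p])).HasBasis (fun _ : ℕ => True)
      (fun n => ((Ideal.span {(p : ℤ_[p]) ^ n} : Ideal ℤ_[p]) : Set ℤ_[p])) := by
    have h1 := Metric.nhds_basis_closedBall_pow (x := (0 : ℤ_[p])) (r := (p : ℝ)⁻¹)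
      (by positivity) (inv_lt_one_of_one_lt₀ hp1)
    have h2 : (fun n : ℕ => Metric.closedBall (0 : ℤ_[p]) ((p : ℝ)⁻¹ ^ n)) =
        fun n => ((Ideal.span {(p : ℤ_[p]) ^ n} : Ideal ℤ_[p]) : Set ℤ_[p]) := by
      funext n
      ext x
      rw [mem_closedBall_zero_iff, SetLike.mem_coe, ← PadicInt.norm_le_pow_iff_mem_span_pow,
        zpow_neg, zpow_natCast, inv_pow]
    rw [h2] at h1
    exact h1
  exact IsLinearTopology.mk_of_hasBasis ℤ_[p] hb

/-- EVH -/
theorem evh : EvhStmt := by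
  intro p _ σ _ x hx
  have := lin_top p
  have he : MvPowerSeries.HasEval x := by
    refine ⟨fun i => ?_, ?_⟩
    · exact tendsto_pow_atTop_nhds_zero_of_norm_lt_one (hx i)
    · rw [Filter.cofinite_eq_bot]
      exact tendsto_bot
  refine ⟨MvPowerSeries.aeval he, fun i => ?_⟩
  have h1 := MvPowerSeries.aeval_coe (R := ℤ_[p]) he (MvPolynomial.X i)
  rw [MvPolynomial.coe_X, MvPolynomial.aeval_X] at h1
  exact h1

end Pool.Agent.LUB.H89
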